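import Mathlib

/-!
# Lift universality of colourings with tower growth (statements)

Everything lives on finite sets of natural numbers.
A graph colouring is a symmetric function `g : ℕ → ℕ → Bool`.
-/

namespace Pool.Agent.W965.LU

/-- Size bound of the reduction from uniformity `s + 2` to graphs. -/
def B : ℕ → ℕ → ℕ
  | 0, k => k
  | s + 1, k => 2 ^ (B s k * (1 + (B s k) ^ (s + 1)))

/-- END: end-homogeneous subsets. -/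
def S_END : Prop :=
  ∀ (s : ℕ) (col : Finset ℕ → Prop) (W : Finset ℕ) (k : ℕ),
    2 ^ (k * (1 + k ^ (s + 1))) ≤ W.card →
    ∃ X ⊆ W, X.card = k ∧ ∀ T ⊆ X, T.card = s + 2 → ∀ l ∈ X, ∀ l' ∈ X,
      (∀ t ∈ T, t < l) → (∀ t ∈ T, t < l') → (col (insert l T) ↔ col (insert l' T))

/-- RED: on a large subset the colour depends on the two smallest elements only. -/
def S_RED : Prop :=
  ∀ (s : ℕ) (col : Finset ℕ → Prop) (W : Finset ℕ) (k : ℕ), B s k ≤ W.card →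
    ∃ X ⊆ W, X.card = k ∧ ∃ ψ : ℕ → ℕ → Prop, ∀ a ∈ X, ∀ b ∈ X, ∀ T ⊆ X, T.card = s →
      a < b → (∀ t ∈ T, b < t) → (col (insert a (insert b T)) ↔ ψ a b)

/-- SPLIT: consecutive blocks. -/
def S_SPLIT : Prop :=
  ∀ (m b : ℕ) (Z : Finset ℕ), m * b ≤ Z.card →
    ∃ W : ℕ → Finset ℕ, (∀ i < m, W i ⊆ Z ∧ (W i).card = b) ∧
      ∀ i j, i < j → j < m → ∀ x ∈ W i, ∀ y ∈ W j, x < y

/-- EMB: embedding into blocks, or a sparse pair. -/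
def S_EMB : Prop :=
  ∀ (g : ℕ → ℕ → Bool) (Q m t c0 b : ℕ) (F : ℕ → ℕ → Bool) (W : ℕ → Finset ℕ),
    1 ≤ Q → t ≤ m → 1 ≤ b → (∀ i < t, b ≤ c0 * (W i).card) →
    (∃ x : ℕ → ℕ, (∀ i < t, x i ∈ W i) ∧ ∀ i j, i < j → j < t → g (x i) (x j) = F i j) ∨
    (∃ (i j : ℕ) (A D : Finset ℕ) (c : Bool), i < j ∧ j < t ∧ A ⊆ W i ∧ D ⊆ W j ∧
      b ≤ c0 * Q ^ t * m * A.card ∧ b ≤ c0 * Q ^ t * m * D.card ∧
      ∀ a ∈ A, Q * (D.filter (fun y => g a y = c)).card ≤ D.card)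

/-- An increasing copy of the ordered graph `F` on `{0, ..., m-1}` inside `Z`. -/
def Copy (g F : ℕ → ℕ → Bool) (m : ℕ) (Z : Finset ℕ) : Prop :=
  ∃ x : ℕ → ℕ, (∀ i < m, x i ∈ Z) ∧
    ∀ i j, i < j → j < m → x i < x j ∧ g (x i) (x j) = F i j

/-- A pair `(A, D)` of disjoint subsets of `Z` of size at least `|Z| / Δ` such that every
element of `A` has at most `|D| / Q` neighbours of colour `c` in `D`. -/
def Pair (g : ℕ → ℕ → Bool) (Q Δ : ℕ) (Z : Finset ℕ) : Prop :=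
  ∃ (A D : Finset ℕ) (c : Bool), A ⊆ Z ∧ D ⊆ Z ∧ Disjoint A D ∧
    Z.card ≤ Δ * A.card ∧ Z.card ≤ Δ * D.card ∧
    ∀ a ∈ A, Q * (D.filter (fun y => g a y = c)).card ≤ D.card

/-- PAIR: an ordered copy or a sparse pair. -/
def S_PAIR : Prop :=
  ∀ (g F : ℕ → ℕ → Bool) (Q m : ℕ) (Z : Finset ℕ), 1 ≤ Q → 1 ≤ m → m ≤ Z.card →
    Copy g F m Z ∨ Pair g Q (2 * m ^ 2 * Q ^ m) Z

/-- STR: iterated sparse pairs give a subset of small density in one colour. -/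
def S_STR : Prop :=
  ∀ (g : ℕ → ℕ → Bool) (H L Δ m : ℕ) (X : Finset ℕ), (∀ a b, g a b = g b a) →
    1 ≤ L → 1 ≤ Δ → m ≤ 2 * Δ → (∀ Z ⊆ X, m ≤ Z.card → Pair g (2 ^ (H + 1)) Δ Z) →
    L * (2 * Δ) ^ (2 * H) ≤ X.card →
    ∃ Y ⊆ X, ∃ c : Bool, Y.card = 2 ^ H * L ∧
      2 ^ H * ∑ a ∈ Y, (Y.filter (fun y => g a y = c)).card ≤ 2 * Y.card ^ 2

/-- DEG: removing the vertices of large degree. -/
def S_DEG : Prop :=
  ∀ (Y : Finset ℕ) (f : ℕ → ℕ) (H : ℕ), 2 ≤ H →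
    2 ^ H * ∑ a ∈ Y, f a ≤ 2 * Y.card ^ 2 →
    Y.card ≤ 2 * (Y.filter (fun v => 2 ^ (H - 2) * f v ≤ Y.card)).card

/-- PAT: counting small subsets. -/
def S_PAT : Prop :=
  ∀ (A : Finset ℕ) (J p : ℕ), 1 ≤ J → A.card ≤ J * p →
    (A.powerset.filter (fun T => T.card ≤ p)).card ≤ (4 * J) ^ p

/-- No pair of distinct elements of `I` has colour `c`. -/
def Free (g : ℕ → ℕ → Bool) (c : Bool) (I : Finset ℕ) : Prop :=
  ∀ a ∈ I, ∀ b ∈ I, a ≠ b → g a b ≠ c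

/-- ES: the Erdős-Szemerédi process. -/
def S_ES : Prop :=
  ∀ (g : ℕ → ℕ → Bool) (c : Bool) (S : Finset ℕ) (N J p Z0 : ℕ), (∀ a b, g a b = g b a) →
    1 ≤ J → 1 ≤ p → (∀ v ∈ S, 8 * J * (S.filter (fun y => g v y = c)).card ≤ N) →
    N ≤ 2 * S.card → 8 * J * p ≤ N → 4 * (4 * J) ^ p * Z0 ≤ N →
    (∀ Z ⊆ S, Z0 ≤ Z.card → ∃ I ⊆ Z, I.card = 2 * p ∧ Free g c I) →
    ∀ j ≤ J, ∃ A ⊆ S, j * p ≤ A.card ∧ Free g c A

/-- RAM: an off-diagonal Ramsey bound. -/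
def S_RAM : Prop :=
  ∀ (g : ℕ → ℕ → Bool) (c : Bool) (a k l : ℕ) (Z : Finset ℕ), (∀ a b, g a b = g b a) →
    2 ≤ a → a ^ (k + l) ≤ (Z.card + 1) * (a - 1) ^ l →
    (∃ I ⊆ Z, I.card = k ∧ Free g c I) ∨ (∃ I ⊆ Z, I.card = l ∧ Free g (!c) I)

/-- RNUM: a numerical inequality. -/
def S_RNUM : Prop :=
  ∀ h u p : ℕ, 1 ≤ h → 2000 ≤ u → 384 * h * p ≤ u →
    (2 ^ (h + 5) + 1) ^ (2 * p + 2 ^ h * u) ≤
      (2 ^ (u / 8) + 1) * (2 ^ (h + 5)) ^ (2 ^ h * u)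

/-- ORD: ordered universality of graphs with small homogeneous sets. -/
def S_ORD : Prop :=
  ∀ (g F : ℕ → ℕ → Bool) (h m u : ℕ) (X : Finset ℕ), (∀ a b, g a b = g b a) →
    1 ≤ h → 1 ≤ m → 2000 * h ^ 2 * m ≤ u → 2 ^ u ≤ X.card →
    Copy g F m X ∨ ∃ Y ⊆ X, Y.card = 2 ^ h * u ∧ ∃ c : Bool, Free g c Y

/-- TOW: the reduction bound is at most a tower. -/
def S_TOW : Prop :=
  ∀ s : ℕ, ∃ C : ℝ, 1 ≤ C ∧ ∀ u : ℕ, 1 ≤ u →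
    (B s (2 ^ u + s) : ℝ) ≤ (Real.exp)^[s + 1] (C * u)

end Pool.Agent.W965.LU
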