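import Pool.Agent.W965.LU.Stms

namespace Pool.Agent.W965.LU.Ord
open Pool.Agent.W965.LU

theorem free_mono {g : ℕ → ℕ → Bool} {c : Bool} {I J : Finset ℕ} (h : I ⊆ J) (hJ : Free g c J) :
    Free g c I := fun a ha b hb hab => hJ a (h ha) b (h hb) hab

theorem copy_mono {g F : ℕ → ℕ → Bool} {m : ℕ} {Z X : Finset ℕ} (h : Z ⊆ X)
    (hc : Copy g F m Z) : Copy g F m X := by
  obtain ⟨x, hx, hx2⟩ := hc
  exact ⟨x, fun i hi => h (hx i hi), hx2⟩

theorem num1 (h m u : ℕ) (h1 : 1 ≤ h) (hm : 1 ≤ m) (hu : 2000 * h ^ 2 * m ≤ u) :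
    2 ^ (u / 2) * (2 * (2 * m ^ 2 * (2 ^ (20 * h + 1)) ^ m)) ^ (2 * (20 * h)) ≤ 2 ^ u := by
  have hm2 : m ≤ 2 ^ m := Nat.lt_two_pow_self.le
  have e1 : 2 * (2 * m ^ 2 * (2 ^ (20 * h + 1)) ^ m) ≤ 2 ^ ((20 * h + 5) * m) := by
    calc 2 * (2 * m ^ 2 * (2 ^ (20 * h + 1)) ^ m)
        = 2 ^ 2 * (m ^ 2 * 2 ^ ((20 * h + 1) * m)) := by rw [← pow_mul]; ring
      _ ≤ 2 ^ (2 * m) * ((2 ^ m) ^ 2 * 2 ^ ((20 * h + 1) * m)) := by
          apply Nat.mul_le_mul (Nat.pow_le_pow_right (by norm_num) (by omega))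
          exact Nat.mul_le_mul (Nat.pow_le_pow_left hm2 2) le_rfl
      _ = 2 ^ ((20 * h + 5) * m) := by
          rw [← pow_mul, ← pow_add, ← pow_add]; congr 1; ring
  calc 2 ^ (u / 2) * (2 * (2 * m ^ 2 * (2 ^ (20 * h + 1)) ^ m)) ^ (2 * (20 * h))
      ≤ 2 ^ (u / 2) * (2 ^ ((20 * h + 5) * m)) ^ (2 * (20 * h)) :=
        Nat.mul_le_mul le_rfl (Nat.pow_le_pow_left e1 _)
    _ = 2 ^ (u / 2 + (20 * h + 5) * m * (2 * (20 * h))) := by rw [← pow_mul, ← pow_add]
    _ ≤ 2 ^ u := by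
        apply Nat.pow_le_pow_right (by norm_num)
        have : (20 * h + 5) * m * (2 * (20 * h)) ≤ 1000 * h ^ 2 * m := by
          have : 20 * h + 5 ≤ 25 * h := by omega
          calc (20 * h + 5) * m * (2 * (20 * h)) ≤ (25 * h) * m * (2 * (20 * h)) := by gcongr
            _ = 1000 * h ^ 2 * m := by ring
        have h3 : 2000 * h ^ 2 * m = 2 * (1000 * h ^ 2 * m) := by ring
        omega

theorem main (hpair : S_PAIR) (hstr : S_STR) (hdeg : S_DEG) (hram : S_RAM) (hes : S_ES)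
    (hnum : S_RNUM) : S_ORD := by
  intro g F h m u X hg h1 hm hu hX
  by_cases hc : Copy g F m X
  · exact Or.inl hc
  right
  by_contra hno
  have hu2 : 2000 ≤ u := by
    have : 1 ≤ h ^ 2 * m := Nat.one_le_iff_ne_zero.mpr (by positivity)
    calc 2000 = 2000 * 1 := by norm_num
      _ ≤ 2000 * (h ^ 2 * m) := Nat.mul_le_mul le_rfl this
      _ = 2000 * h ^ 2 * m := by ring
      _ ≤ u := hu
  have hu3 : 384 * h ≤ u := by
    have : h ≤ h ^ 2 * m := by
      calc h = h * 1 := by ring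
        _ ≤ h * (h * m) := Nat.mul_le_mul le_rfl (Nat.one_le_iff_ne_zero.mpr (by positivity))
        _ = h ^ 2 * m := by ring
    calc 384 * h ≤ 2000 * (h ^ 2 * m) := Nat.mul_le_mul (by norm_num) this
      _ = 2000 * h ^ 2 * m := by ring
      _ ≤ u := hu
  obtain ⟨Y, hYX, c, hYc, hYd⟩ := hstr g (20 * h) (2 ^ (u / 2)) (2 * m ^ 2 * (2 ^ (20 * h + 1)) ^ m)
    m X hg Nat.one_le_two_pow
    (Nat.one_le_iff_ne_zero.mpr (by positivity))
    (by
      have : 1 ≤ (2 ^ (20 * h + 1)) ^ m := Nat.one_le_iff_ne_zero.mpr (by positivity)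
      calc m = m * 1 := by ring
        _ ≤ (4 * m ^ 2) * (2 ^ (20 * h + 1)) ^ m := by
            apply Nat.mul_le_mul _ this
            nlinarith
        _ = 2 * (2 * m ^ 2 * (2 ^ (20 * h + 1)) ^ m) := by ring)
    (by
      intro Z hZ hmZ
      rcases hpair g F (2 ^ (20 * h + 1)) m Z Nat.one_le_two_pow hm hmZ with h2 | h2
      · exact absurd (copy_mono hZ h2) hc
      · exact h2)
    ((num1 h m u h1 hm hu).trans hX)
  have hN : Y.card = 2 ^ (20 * h) * 2 ^ (u / 2) := hYc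
  have hd := hdeg Y (fun v => (Y.filter (fun y => g v y = c)).card) (20 * h) (by omega) hYd
  set S := Y.filter (fun v => 2 ^ (20 * h - 2) * (Y.filter (fun y => g v y = c)).card ≤ Y.card)
    with hS
  have hSY : S ⊆ Y := Finset.filter_subset _ _
  set p := u / (384 * h) with hp
  have hpos : 0 < 384 * h := by omega
  have hp1 : 1 ≤ p := by
    rw [hp]; exact (Nat.one_le_div_iff hpos).mpr hu3
  have hpu : 384 * h * p ≤ u := Nat.mul_div_le u (384 * h)
  have hup : u < 384 * h * (p + 1) := Nat.lt_mul_div_succ u hpos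
  have h8 : 8 * 2 ^ (20 * h - 5) = 2 ^ (20 * h - 2) := by
    have : 20 * h - 2 = (20 * h - 5) + 3 := by omega
    rw [this, pow_add]; ring
  have h4 : 4 * 2 ^ (20 * h - 5) = 2 ^ (20 * h - 3) := by
    have : 20 * h - 3 = (20 * h - 5) + 2 := by omega
    rw [this, pow_add]; ring
  have hple : p ≤ u := Nat.div_le_self _ _
  have hu4 : u ≤ 4 * 2 ^ (u / 2) := by
    have : u / 2 < 2 ^ (u / 2) := Nat.lt_two_pow_self
    omega
  obtain ⟨A, hAS, hAc, hAf⟩ := hes g c S Y.card (2 ^ (20 * h - 5)) p (2 ^ (u / 8)) hg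
    Nat.one_le_two_pow hp1
    (by
      intro v hv
      rw [h8]
      have hv2 := (Finset.mem_filter.mp hv).2
      refine le_trans (Nat.mul_le_mul le_rfl (Finset.card_le_card ?_)) hv2
      exact Finset.filter_subset_filter _ hSY)
    hd
    (by
      rw [h8, hN]
      calc 2 ^ (20 * h - 2) * p ≤ 2 ^ (20 * h - 2) * (4 * 2 ^ (u / 2)) :=
            Nat.mul_le_mul le_rfl (hple.trans hu4)
        _ = (2 ^ (20 * h - 2) * 2 ^ 2) * 2 ^ (u / 2) := by ring
        _ = 2 ^ (20 * h) * 2 ^ (u / 2) := by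
            rw [← pow_add]; congr 2; omega)
    (by
      rw [h4, hN, ← pow_mul]
      have : 4 * 2 ^ ((20 * h - 3) * p) * 2 ^ (u / 8) = 2 ^ (2 + (20 * h - 3) * p + u / 8) := by
        rw [pow_add, pow_add]; norm_num
      rw [this, ← pow_add]
      apply Nat.pow_le_pow_right (by norm_num)
      have h5 : (20 * h - 3) * p ≤ 20 * h * p := Nat.mul_le_mul (Nat.sub_le _ _) le_rfl
      have h6 : 384 * h * p = 19 * (20 * h * p) + 4 * (h * p) := by ring
      omega)
    (by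
      intro Z hZ hZc
      have hr := hram g c (2 ^ (h + 5) + 1) (2 * p) (2 ^ h * u) Z hg
        (Nat.add_le_add_right (Nat.one_le_two_pow) 1)
        (by
          refine (hnum h u p h1 hu2 hpu).trans ?_
          rw [Nat.add_sub_cancel]
          exact Nat.mul_le_mul (by omega) le_rfl)
      rcases hr with hr | hr
      · exact hr
      · obtain ⟨I, hI, hIc, hIf⟩ := hr
        exact absurd ⟨I, hI.trans (hZ.trans (hSY.trans hYX)), hIc, _, hIf⟩ hno)
    (2 ^ (20 * h - 5)) le_rfl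
  have hfin : 2 ^ h * u ≤ A.card := by
    refine le_trans ?_ hAc
    have e1 : u ≤ 768 * h * p := by
      have : 384 * h * (p + 1) = 384 * h * p + 384 * h := by ring
      have h7 : 384 * h ≤ 384 * h * p := Nat.le_mul_of_pos_right _ hp1
      have h8 : 768 * h * p = 2 * (384 * h * p) := by ring
      omega
    calc 2 ^ h * u ≤ 2 ^ h * (768 * h * p) := Nat.mul_le_mul le_rfl e1
      _ = (2 ^ h * (768 * h)) * p := by ring
      _ ≤ 2 ^ (20 * h - 5) * p := by
          apply Nat.mul_le_mul _ le_rfl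
          calc 2 ^ h * (768 * h) ≤ 2 ^ h * (2 ^ 10 * 2 ^ h) := by
                apply Nat.mul_le_mul le_rfl
                exact Nat.mul_le_mul (by norm_num) Nat.lt_two_pow_self.le
            _ = 2 ^ (2 * h + 10) := by rw [← pow_add, ← pow_add]; congr 1; ring
            _ ≤ 2 ^ (20 * h - 5) := Nat.pow_le_pow_right (by norm_num) (by omega)
  obtain ⟨A', hA', hA'c⟩ := Finset.exists_subset_card_eq hfin
  exact hno ⟨A', hA'.trans (hAS.trans (hSY.trans hYX)), hA'c, c, free_mono hA' hAf⟩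

end Pool.Agent.W965.LU.Ord
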