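import Pool.Agent.W965.LU.Stms

namespace Pool.Agent.W965.LU

/-- `Y` is monochromatic: all its `r`-subsets have the same colour
(`col S` means that `S` is red). -/
def Mono {V : Type} (r : ℕ) (col : Finset V → Prop) (Y : Finset V) : Prop :=
  (∀ S ⊆ Y, S.card = r → col S) ∨ (∀ S ⊆ Y, S.card = r → ¬ col S)

/-- The colouring `col` of the `(s+2)`-subsets of `V` contains the lift of the graph `F`:
there are distinct points `x 0, ..., x (m+s-1)` such that an `(s+2)`-subset of them is red
exactly when its two points of smallest index are adjacent in `F`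
(the last `s` points only serve to complete pairs to `(s+2)`-sets). -/
def HasLift {V : Type} [DecidableEq V] (s m : ℕ) (col : Finset V → Prop)
    (F : SimpleGraph (Fin m)) : Prop :=
  ∃ x : Fin (m + s) ↪ V, ∀ i j : Fin m, i < j → ∀ T : Finset (Fin (m + s)), T.card = s →
    (∀ t ∈ T, Fin.castAdd s j < t) →
    (col (insert (x (Fin.castAdd s i)) (insert (x (Fin.castAdd s j)) (T.map x))) ↔ F.Adj i j)

end Pool.Agent.W965.LU

namespace Pool.Agent.W965.LU.Fi
open Pool.Agent.W965.LU

theorem two_smallest (s : ℕ) (S : Finset ℕ) (hS : S.card = s + 2) :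
    ∃ a b T, a < b ∧ (∀ t ∈ T, b < t) ∧ T.card = s ∧ S = insert a (insert b T) := by
  have h1 : S.Nonempty := Finset.card_pos.mp (by omega)
  have h2 : (S.erase (S.min' h1)).card = s + 1 := by
    rw [Finset.card_erase_of_mem (S.min'_mem h1)]; omega
  have h3 : (S.erase (S.min' h1)).Nonempty := Finset.card_pos.mp (by omega)
  refine ⟨S.min' h1, (S.erase (S.min' h1)).min' h3,
    (S.erase (S.min' h1)).erase ((S.erase (S.min' h1)).min' h3), ?_, ?_, ?_, ?_⟩
  · exact Finset.min'_lt_of_mem_erase_min' S h1 (Finset.min'_mem _ _)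
  · intro t ht
    exact Finset.min'_lt_of_mem_erase_min' _ h3 ht
  · rw [Finset.card_erase_of_mem (Finset.min'_mem _ _)]; omega
  · rw [Finset.insert_erase (Finset.min'_mem _ _), Finset.insert_erase (Finset.min'_mem _ _)]

theorem core (hred : S_RED) (hord : S_ORD) (s n m h u : ℕ) (hm : 1 ≤ m) (h1 : 1 ≤ h)
    (hu : 2000 * h ^ 2 * m ≤ u) (hn : n ≤ 2 ^ h * u) (V : Type) [Fintype V] [DecidableEq V]
    (col : Finset V → Prop) (hV : B s (2 ^ u + s) ≤ Fintype.card V)
    (hno : ¬ ∃ Y : Finset V, Y.card = n ∧ Mono (s + 2) col Y) (F : SimpleGraph (Fin m)) :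
    HasLift s m col F := by
  classical
  let φ : V ↪ ℕ := (Fintype.equivFin V).toEmbedding.trans Fin.valEmbedding
  let colN : Finset ℕ → Prop := fun S => ∃ S' : Finset V, S'.map φ = S ∧ col S'
  have hcol : ∀ S : Finset V, colN (S.map φ) ↔ col S := by
    intro S
    constructor
    · rintro ⟨S', hS', hc⟩
      rwa [Finset.map_injective φ hS'] at hc
    · intro hc
      exact ⟨S, rfl, hc⟩
  let W : Finset ℕ := Finset.univ.map φ
  have hW : W.card = Fintype.card V := by simp [W]
  have hWmem : ∀ y, y ∈ W ↔ ∃ v, φ v = y := by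
    intro y; simp [W]
  obtain ⟨X, hXW, hXc, ψ, hψ⟩ := hred s colN W (2 ^ u + s) (by rw [hW]; exact hV)
  let o := X.orderEmbOfFin hXc
  have hoX : ∀ i, o i ∈ X := fun i => Finset.orderEmbOfFin_mem X hXc i
  let X1 : Finset ℕ := Finset.univ.image (fun i : Fin (2 ^ u) => o (Fin.castAdd s i))
  have hX1 : X1 ⊆ X := by
    intro y hy
    obtain ⟨i, _, rfl⟩ := Finset.mem_image.mp hy
    exact hoX _
  have hX1c : X1.card = 2 ^ u := by
    have : Function.Injective (fun i : Fin (2 ^ u) => o (Fin.castAdd s i)) := by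
      intro i j hij
      exact Fin.castAdd_injective _ _ (o.injective hij)
    rw [Finset.card_image_of_injective _ this]
    simp
  have hX1lt : ∀ y ∈ X1, ∀ t : Fin s, y < o (Fin.natAdd (2 ^ u) t) := by
    intro y hy t
    obtain ⟨i, _, rfl⟩ := Finset.mem_image.mp hy
    apply o.strictMono
    rw [Fin.lt_def]
    simp only [Fin.val_castAdd, Fin.val_natAdd]
    omega
  let g : ℕ → ℕ → Bool := fun a b => decide ((a < b ∧ ψ a b) ∨ (b < a ∧ ψ b a))
  have hg : ∀ a b, g a b = g b a := by
    intro a b
    simp only [g]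
    congr 1
    exact propext or_comm
  have hgψ : ∀ a b, a < b → (g a b = true ↔ ψ a b) := by
    intro a b hab
    simp only [g, decide_eq_true_eq]
    constructor
    · rintro (h2 | h2)
      · exact h2.2
      · exact absurd h2.1 (by omega)
    · intro h2
      exact Or.inl ⟨hab, h2⟩
  let Fb : ℕ → ℕ → Bool := fun i j => decide (∃ (hi : i < m) (hj : j < m), F.Adj ⟨i, hi⟩ ⟨j, hj⟩)
  have hFb : ∀ i j : Fin m, Fb i j = true ↔ F.Adj i j := by
    intro i j
    simp only [Fb, decide_eq_true_eq]
    constructor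
    · rintro ⟨_, _, h2⟩
      exact h2
    · intro h2
      exact ⟨i.2, j.2, h2⟩
  rcases hord g Fb h m u X1 hg h1 hm hu hX1c.ge with hc | hc
  · obtain ⟨x, hx, hx2⟩ := hc
    let xx : Fin (m + s) → ℕ := Fin.addCases (fun i => x i) (fun t => o (Fin.natAdd (2 ^ u) t))
    have hxl : ∀ i : Fin m, xx (Fin.castAdd s i) = x i := fun i => Fin.addCases_left i
    have hxr : ∀ t : Fin s, xx (Fin.natAdd m t) = o (Fin.natAdd (2 ^ u) t) :=
      fun t => Fin.addCases_right t
    have hxmono : StrictMono xx := by
      intro i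
      refine Fin.addCases (fun i => ?_) (fun i => ?_) i
      · intro j
        refine Fin.addCases (fun j => ?_) (fun j => ?_) j
        · intro hij
          rw [hxl, hxl]
          have hij2 := Fin.lt_def.mp hij
          simp only [Fin.val_castAdd] at hij2
          exact (hx2 i j hij2 j.2).1
        · intro _
          rw [hxl, hxr]
          exact hX1lt _ (hx i i.2) j
      · intro j
        refine Fin.addCases (fun j => ?_) (fun j => ?_) j
        · intro hij
          exfalso
          rw [Fin.lt_def] at hij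
          simp only [Fin.val_castAdd, Fin.val_natAdd] at hij
          omega
        · intro hij
          rw [hxr, hxr]
          apply o.strictMono
          rw [Fin.lt_def] at hij ⊢
          simp only [Fin.val_natAdd] at hij ⊢
          omega
    have hxX : ∀ i, xx i ∈ X := by
      intro i
      refine Fin.addCases (fun i => ?_) (fun i => ?_) i
      · rw [hxl]; exact hX1 (hx i i.2)
      · rw [hxr]; exact hoX _
    have hxV : ∀ i, ∃ v, φ v = xx i := fun i => (hWmem _).mp (hXW (hxX i))
    choose xv hxv using hxV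
    let xe : Fin (m + s) ↪ V := ⟨xv, by
      intro i j hij
      apply hxmono.injective
      rw [← hxv i, ← hxv j, hij]⟩
    refine ⟨xe, ?_⟩
    intro i j hij T hT hjT
    rw [← hcol]
    have e1 : (insert (xe (Fin.castAdd s i)) (insert (xe (Fin.castAdd s j)) (T.map xe))).map φ
        = insert (x i) (insert (x j) (T.image xx)) := by
      rw [Finset.map_insert, Finset.map_insert]
      have a1 : φ (xe (Fin.castAdd s i)) = x i := by
        rw [← hxl i]; exact hxv _
      have a2 : φ (xe (Fin.castAdd s j)) = x j := by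
        rw [← hxl j]; exact hxv _
      rw [a1, a2]
      congr 2
      ext y
      simp only [Finset.mem_map, Finset.mem_image]
      constructor
      · rintro ⟨v, ⟨t, ht, rfl⟩, rfl⟩
        exact ⟨t, ht, (hxv t).symm⟩
      · rintro ⟨t, ht, rfl⟩
        exact ⟨xe t, ⟨t, ht, rfl⟩, hxv t⟩
    rw [e1]
    have hij' : (x i) < (x j) := (hx2 i j hij j.2).1
    rw [hψ (x i) (hX1 (hx i i.2)) (x j) (hX1 (hx j j.2)) (T.image xx)
      (by
        intro y hy
        obtain ⟨t, _, rfl⟩ := Finset.mem_image.mp hy
        exact hxX t)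
      (by rw [Finset.card_image_of_injective _ hxmono.injective, hT])
      hij'
      (by
        intro y hy
        obtain ⟨t, ht, rfl⟩ := Finset.mem_image.mp hy
        rw [← hxl j]
        exact hxmono (hjT t ht))]
    rw [← hgψ _ _ hij', (hx2 i j hij j.2).2, hFb]
  · exfalso
    obtain ⟨Y, hY, hYc, c, hYf⟩ := hc
    obtain ⟨Y', hY', hY'c⟩ := Finset.exists_subset_card_eq (hYc ▸ hn : n ≤ Y.card)
    apply hno
    let YV : Finset V := Finset.univ.filter (fun v => φ v ∈ Y')
    have hYV : YV.map φ = Y' := by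
      ext y
      simp only [YV, Finset.mem_map, Finset.mem_filter, Finset.mem_univ, true_and]
      constructor
      · rintro ⟨v, hv, rfl⟩; exact hv
      · intro hy
        obtain ⟨v, rfl⟩ := (hWmem y).mp (hXW (hX1 (hY (hY' hy))))
        exact ⟨v, hy, rfl⟩
    refine ⟨YV, by rw [← Finset.card_map φ, hYV, hY'c], ?_⟩
    have key : ∀ S ⊆ YV, S.card = s + 2 → ∃ a b, a ∈ Y ∧ b ∈ Y ∧ a ≠ b ∧
        (col S ↔ g a b = true) := by
      intro S hS hSc
      obtain ⟨a, b, T, hab, hbT, hTc, hST⟩ := two_smallest s (S.map φ) (by rw [Finset.card_map, hSc])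
      have hSY : S.map φ ⊆ Y' := by
        rw [← hYV]; exact Finset.map_subset_map.mpr hS
      have haY : a ∈ Y := hY' (hSY (by rw [hST]; exact Finset.mem_insert_self _ _))
      have hbY : b ∈ Y := hY' (hSY (by rw [hST]; simp))
      have hTY : T ⊆ Y := by
        intro t ht
        exact hY' (hSY (by rw [hST]; simp [ht]))
      refine ⟨a, b, haY, hbY, hab.ne, ?_⟩
      rw [← hcol, hST, hψ a (hX1 (hY haY)) b (hX1 (hY hbY)) T
        (fun t ht => hX1 (hY (hTY ht))) hTc hab hbT, hgψ a b hab]
    cases c with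
    | true =>
      right
      intro S hS hSc hcS
      obtain ⟨a, b, ha, hb, hab, hiff⟩ := key S hS hSc
      exact hYf a ha b hb hab (hiff.mp hcS)
    | false =>
      left
      intro S hS hSc
      obtain ⟨a, b, ha, hb, hab, hiff⟩ := key S hS hSc
      rw [hiff]
      have := hYf a ha b hb hab
      revert this
      cases g a b <;> simp

end Pool.Agent.W965.LU.Fi
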