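import Pool.Agent.W965.LU.Fin

namespace Pool.Agent.W965.LU.Num
open Pool.Agent.W965.LU

def General : Prop :=
  ∀ s : ℕ, ∃ C : ℝ, 0 < C ∧ ∀ n m h : ℕ, 1 ≤ m → 1 ≤ h →
    ∀ (V : Type) [Fintype V] [DecidableEq V] (col : Finset V → Prop),
      (Real.exp)^[s + 1] (C * ((h : ℝ) ^ 2 * m + n / 2 ^ h)) ≤ Fintype.card V →
      (¬ ∃ Y : Finset V, Y.card = n ∧ Mono (s + 2) col Y) →
      ∀ F : SimpleGraph (Fin m), HasLift s m col F

def Linear : Prop :=
  ∀ (s : ℕ) (ε : ℝ), 0 < ε → ∃ c : ℝ, 0 < c ∧ ∀ n m : ℕ, 1 ≤ m → (m : ℝ) ≤ c * n →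
    ∀ (V : Type) [Fintype V] [DecidableEq V] (col : Finset V → Prop),
      (Real.exp)^[s + 1] (ε * n) ≤ Fintype.card V →
      (¬ ∃ Y : Finset V, Y.card = n ∧ Mono (s + 2) col Y) →
      ∀ F : SimpleGraph (Fin m), HasLift s m col F

def LogSquare : Prop :=
  ∀ s : ℕ, ∃ C : ℝ, 0 < C ∧ ∀ n m : ℕ, 2 ≤ n → 1 ≤ m →
    ∀ (V : Type) [Fintype V] [DecidableEq V] (col : Finset V → Prop),
      (Real.exp)^[s + 1] (C * m * (Real.log n) ^ 2) ≤ Fintype.card V →
      (¬ ∃ Y : Finset V, Y.card = n ∧ Mono (s + 2) col Y) →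
      ∀ F : SimpleGraph (Fin m), HasLift s m col F

theorem general (hred : S_RED) (hord : S_ORD) (htow : S_TOW) : General := by
  intro s
  obtain ⟨C0, hC0, hB⟩ := htow s
  refine ⟨2001 * C0, by positivity, ?_⟩
  intro n m h hm h1 V _ _ col hV hno F
  have hmono : Monotone ((Real.exp)^[s + 1]) := Real.exp_monotone.iterate _
  refine Fi.core hred hord s n m h (2000 * h ^ 2 * m + n / 2 ^ h + 1) hm h1
    ((Nat.le_add_right _ _).trans (Nat.le_add_right _ _)) ?_ V col ?_ hno F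
  · have h2 : n < 2 ^ h * (n / 2 ^ h + 1) := Nat.lt_mul_div_succ n (by positivity)
    exact h2.le.trans (Nat.mul_le_mul le_rfl (Nat.add_le_add_right (Nat.le_add_left _ _) 1))
  · have h3 := hB (2000 * h ^ 2 * m + n / 2 ^ h + 1) (Nat.le_add_left _ _)
    have h4 : C0 * ((2000 * h ^ 2 * m + n / 2 ^ h + 1 : ℕ) : ℝ) ≤
        2001 * C0 * ((h : ℝ) ^ 2 * m + n / 2 ^ h) := by
      have h5 : ((n / 2 ^ h : ℕ) : ℝ) ≤ (n : ℝ) / 2 ^ h := by
        have := @Nat.cast_div_le ℝ _ _ _ n (2 ^ h)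
        simpa using this
      have h6 : (1 : ℝ) ≤ (h : ℝ) ^ 2 * m := by
        have a : (1 : ℝ) ≤ h := by exact_mod_cast h1
        have b : (1 : ℝ) ≤ m := by exact_mod_cast hm
        nlinarith [mul_le_mul a a (by norm_num) (by linarith), sq_nonneg ((h : ℝ) - 1)]
      have h7 : (0 : ℝ) ≤ (n : ℝ) / 2 ^ h := by positivity
      have h8 : ((2000 * h ^ 2 * m + n / 2 ^ h + 1 : ℕ) : ℝ) ≤
          2001 * ((h : ℝ) ^ 2 * m + n / 2 ^ h) := by
        rw [Nat.cast_add, Nat.cast_add, Nat.cast_mul, Nat.cast_mul, Nat.cast_pow]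
        push_cast
        push_cast at h5
        nlinarith
      calc C0 * ((2000 * h ^ 2 * m + n / 2 ^ h + 1 : ℕ) : ℝ)
          ≤ C0 * (2001 * ((h : ℝ) ^ 2 * m + n / 2 ^ h)) :=
            mul_le_mul_of_nonneg_left h8 (by linarith)
        _ = 2001 * C0 * ((h : ℝ) ^ 2 * m + n / 2 ^ h) := by ring
    have h9 := (h3.trans (hmono h4)).trans hV
    exact_mod_cast h9

theorem linear (hg : General) : Linear := by
  intro s ε hε
  obtain ⟨C, hC, hgen⟩ := hg s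
  obtain ⟨h0, hh0⟩ := pow_unbounded_of_one_lt (2 * C / ε) (by norm_num : (1 : ℝ) < 2)
  set h := h0 + 1 with hh
  have hh1 : 2 * C / ε ≤ (2 : ℝ) ^ h := by
    refine hh0.le.trans ?_
    exact pow_le_pow_right₀ (by norm_num) (by omega)
  have hpos : (0 : ℝ) < h := by
    have : 0 < h := by omega
    exact_mod_cast this
  refine ⟨ε / (2 * C * h ^ 2), by positivity, ?_⟩
  intro n m hm hmn V _ _ col hV hno F
  have hmono : Monotone ((Real.exp)^[s + 1]) := Real.exp_monotone.iterate _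
  refine hgen n m h hm (by omega) V col (le_trans (hmono ?_) hV) hno F
  have e1 : C * ((h : ℝ) ^ 2 * m) ≤ ε * n / 2 := by
    have : C * ((h : ℝ) ^ 2 * m) ≤ C * ((h : ℝ) ^ 2 * (ε / (2 * C * h ^ 2) * n)) := by gcongr
    refine this.trans (le_of_eq ?_)
    field_simp
  have e2 : C * ((n : ℝ) / 2 ^ h) ≤ ε * n / 2 := by
    have h2 : 2 * C ≤ ε * 2 ^ h := by
      rw [div_le_iff₀ hε] at hh1
      linarith
    rw [← mul_div_assoc, div_le_div_iff₀ (by positivity) (by norm_num)]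
    have hn : (0 : ℝ) ≤ n := Nat.cast_nonneg n
    nlinarith [mul_le_mul_of_nonneg_right h2 hn]
  calc C * ((h : ℝ) ^ 2 * m + n / 2 ^ h) = C * ((h : ℝ) ^ 2 * m) + C * ((n : ℝ) / 2 ^ h) := by ring
    _ ≤ ε * n / 2 + ε * n / 2 := add_le_add e1 e2
    _ = ε * n := by ring

theorem logsq (hg : General) : LogSquare := by
  intro s
  obtain ⟨C, hC, hgen⟩ := hg s
  refine ⟨13 * C, by positivity, ?_⟩
  intro n m hn hm V _ _ col hV hno F
  have hmono : Monotone ((Real.exp)^[s + 1]) := Real.exp_monotone.iterate _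
  refine hgen n m (Nat.log 2 n + 1) hm (by omega) V col (le_trans (hmono ?_) hV) hno F
  set l := Nat.log 2 n with hl
  have h1 : 2 ^ l ≤ n := Nat.pow_log_le_self 2 (by omega)
  have h2 : n < 2 ^ (l + 1) := Nat.lt_pow_succ_log_self (by norm_num) n
  have hnpos : (0 : ℝ) < n := by
    have : 0 < n := by omega
    exact_mod_cast this
  have h3 : (l : ℝ) * Real.log 2 ≤ Real.log n := by
    rw [← Real.log_pow]
    apply Real.log_le_log (by positivity)
    exact_mod_cast h1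
  have h4 : Real.log 2 ≤ Real.log n := by
    apply Real.log_le_log (by norm_num)
    exact_mod_cast hn
  have hlog2 : (0.69 : ℝ) < Real.log 2 := by
    have := Real.log_two_gt_d9
    linarith
  have h5 : ((l : ℝ) + 1) ≤ 3 * Real.log n := by
    have h6 : (l : ℝ) * 0.69 ≤ Real.log n := by
      refine le_trans ?_ h3
      apply mul_le_mul_of_nonneg_left hlog2.le (Nat.cast_nonneg l)
    linarith
  have h7 : (n : ℝ) / 2 ^ (l + 1) ≤ 1 := by
    rw [div_le_one (by positivity)]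
    exact_mod_cast h2.le
  have hm' : (1 : ℝ) ≤ m := by exact_mod_cast hm
  have h8 : (0.47 : ℝ) ≤ (Real.log n) ^ 2 := by nlinarith
  have h9 : ((l : ℝ) + 1) ^ 2 ≤ 9 * (Real.log n) ^ 2 := by
    have : (0 : ℝ) ≤ (l : ℝ) + 1 := by positivity
    nlinarith
  have h10 : (1 : ℝ) ≤ 3 * (m * (Real.log n) ^ 2) := by nlinarith
  have h11 : ((l : ℝ) + 1) ^ 2 * m ≤ 9 * (Real.log n) ^ 2 * m :=
    mul_le_mul_of_nonneg_right h9 (by linarith)
  have h12 : (0 : ℝ) ≤ m * (Real.log n) ^ 2 := by positivity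
  have h13 : ((l + 1 : ℕ) : ℝ) ^ 2 * m + (n : ℝ) / 2 ^ (l + 1) ≤ 13 * (m * (Real.log n) ^ 2) := by
    push_cast
    linarith
  calc C * (((l + 1 : ℕ) : ℝ) ^ 2 * m + (n : ℝ) / 2 ^ (l + 1))
      ≤ C * (13 * (m * (Real.log n) ^ 2)) := mul_le_mul_of_nonneg_left h13 hC.le
    _ = 13 * C * m * (Real.log n) ^ 2 := by ring

end Pool.Agent.W965.LU.Num
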